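import Pool.Agent.N366.CC.Fin

/-!
# A cyclically 6-edge-connected rotation snark

There is a cyclically 6-edge-connected rotation `T_6`-snark (it has 190 vertices).
-/

set_option autoImplicit false

namespace Pool.Agent.Results.MP_98514b_co.CyclicallySixRotationSnark

open Pool.Agent.N366.RS

/-- `G` is cyclically `k`-edge-connected: whenever fewer than `k` edges are deleted, the result does
not have two components that both contain a cycle. -/
def CyclicallyEdgeConnected (k : ℕ) {V : Type} (G : SimpleGraph V) : Prop :=
  ∀ D : Set (Sym2 V), D ⊆ G.edgeSet → D.ncard < k → ∀ (u v : V)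
    (c : (G.deleteEdges D).Walk u u) (d : (G.deleteEdges D).Walk v v), c.IsCycle → d.IsCycle →
    (G.deleteEdges D).Reachable u v

/-- There is a cyclically 6-edge-connected rotation `T_6`-snark. -/
theorem result : ∃ (V : Type) (_ : Finite V) (G : SimpleGraph V),
    IsRotationTSnark 6 G ∧ CyclicallyEdgeConnected 6 G :=
  ⟨Fin 190, inferInstance, Pool.Agent.N366.CC.G, Pool.Agent.N366.CC.G_rot,
    fun D _ hD u v c d hc hd => Pool.Agent.N366.CC.cyc6 D hD u v c d hc hd⟩

end Pool.Agent.Results.MP_98514b_co.CyclicallySixRotationSnark
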